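import Pool.Agent.Q15.FM3E

/-!
# Ordinary two-dimensional representations of number fields

Let `K` be a number field, `p` an odd prime, `S` a set of primes of `K` not above `p`, and `A` a
complete discrete valuation ring with finite residue field `κ` of characteristic `p`, in which `p`
has valuation `e`. Let `ρ : G_K → GL_2(A)` be a continuous representation, unramified outside `S` and
`p`, such that the semisimplification of its reduction is the sum of two copies of a character, the
inertia groups at the primes in `S` act unipotently, and every decomposition group above `p`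
preserves a line. Three conditions on the additive characters `G_K → κ` unramified outside `S` and
`p` imply that `ρ` is reducible:

* (`NoPair`) there are no nonzero characters `x`, `y`, such that the primes in `S` ramified for one
  of them split completely for the other, and such that at each place above `p` one of them is
  locally trivial;
* (`NoTuple`) a homomorphism `M` from `G_K` to the additive group of trace zero matrices, which
  satisfies the first order consequences of the tame relations and has eigenvectors locally at `p`,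
  has an eigenvector;
* (`NoTriple`) there is no triple of characters that looks like the entries of the leading terms of
  an irreducible representation whose diagonal part is congruent to a nonzero character.

The third condition holds if `K` has only one cyclic extension `K₁` of degree `p` unramified outside
`p` (for instance, if `K` is totally real and `p`-rational; `K₁` is then cyclotomic) and the primes in
`S` with norm `1` modulo `p` do not split in `K₁`. All three conditions hold if moreover at most one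
prime in `S` has norm `1` modulo `p`.
-/

set_option autoImplicit false

namespace Pool.Agent.Results.MP_f68ac8_nt.OrdinaryNumberFields

open NumberField IsLocalRing Matrix

/-- the absolute Galois group of the field `K`, with the Krull topology -/
abbrev AbsGal (K : Type) [Field K] : Type := Gal(AlgebraicClosure K/K)

/-- the ring of all algebraic integers -/
abbrev ZBar (K : Type) [Field K] : Type := 𝓞 (AlgebraicClosure K)

section

variable {K : Type} [Field K] [NumberField K]

/-- `τ` lies in the inertia group at the prime ideal `P` of the ring of all algebraic integers -/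
def InInertia (P : Ideal (ZBar K)) (τ : AbsGal K) : Prop := ∀ x : ZBar K, τ • x - x ∈ P

/-- the decomposition group at the prime ideal `P` -/
def Decomposition (P : Ideal (ZBar K)) : Set (AbsGal K) := {g | ∀ x : ZBar K, g • x ∈ P ↔ x ∈ P}

/-- the prime of `K` below `P` -/
noncomputable def below (P : Ideal (ZBar K)) : Ideal (𝓞 K) :=
  P.comap (algebraMap (𝓞 K) (ZBar K))

/-- `σ` is a Frobenius element at `P`: it acts on the residue field as `x ↦ x ^ N(v)`, where `v` is
the prime of `K` below `P` -/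
def IsFrobenius (P : Ideal (ZBar K)) (σ : AbsGal K) : Prop :=
  ∀ x : ZBar K, σ • x - x ^ Ideal.absNorm (below P) ∈ P

/-- the primes in `S` and the primes above `p` -/
def withP (p : ℕ) (S : Set (Ideal (𝓞 K))) : Set (Ideal (𝓞 K)) := {v | v ∈ S ∨ (p : 𝓞 K) ∈ v}

/-- the homomorphism `f` is trivial on the inertia groups at the primes which are not in `S` -/
def UnramifiedOutside (S : Set (Ideal (𝓞 K))) {E : Type} [Group E] (f : AbsGal K →* E) : Prop :=
  ∀ P : Ideal (ZBar K), P.IsMaximal → below P ∉ S → ∀ τ : AbsGal K, InInertia P τ → f τ = 1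

variable (κ : Type) [Field κ]

/-- a continuous character with values in the additive group of `κ` which is unramified outside
`S` and `p` -/
def IsCharacter (p : ℕ) (S : Set (Ideal (𝓞 K))) (x : AbsGal K →* Multiplicative κ) : Prop :=
  IsOpen (x.ker : Set (AbsGal K)) ∧ UnramifiedOutside (withP p S) x

variable {κ}

/-- the primes in `S` at which `x` is ramified are completely split for `y`: the Frobenius elements
are in the kernel of `y` -/
def SplitWhereRamified (S : Set (Ideal (𝓞 K))) (x y : AbsGal K →* Multiplicative κ) : Prop :=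
  ∀ P : Ideal (ZBar K), P.IsMaximal → below P ∈ S → (∃ τ, InInertia P τ ∧ x τ ≠ 1) →
    ∀ σ, IsFrobenius P σ → y σ = 1

variable (κ)

/-- there is no pair of nonzero characters `x`, `y` such that the ramified primes in `S` of each of
them split completely for the other one, and such that for every decomposition group above `p` one of
them is trivial on it -/
def NoPair (p : ℕ) (S : Set (Ideal (𝓞 K))) : Prop :=
  ∀ x y : AbsGal K →* Multiplicative κ, IsCharacter κ p S x → IsCharacter κ p S y →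
    SplitWhereRamified S x y → SplitWhereRamified S y x →
    (∀ P : Ideal (ZBar K), P.IsMaximal → (p : ZBar K) ∈ P →
      (∀ g ∈ Decomposition P, x g = 1) ∨ ∀ g ∈ Decomposition P, y g = 1) →
    (∀ g, x g = 1) ∨ ∀ g, y g = 1

variable {κ}

/-- the matrices `M(g)`, `g ∈ D`, have a common eigenvector -/
def Eigen (M : AbsGal K → Matrix (Fin 2) (Fin 2) κ) (D : Set (AbsGal K)) : Prop :=
  ∃ v : Fin 2 → κ, v ≠ 0 ∧ ∀ g ∈ D, ∃ c : κ, M g *ᵥ v = c • v

variable (κ)

/-- Let `M` be a continuous homomorphism from `G_K` to the additive group of two by two matrices of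
trace zero over `κ`, unramified outside `S` and `p`. Suppose that, for every inertia element `τ` and
Frobenius element `σ` at a prime `P` above `v ∈ S`, we have `M(τ) ^ 2 = 0`, `M(τ) = 0` if `N(v)` is
not `1` modulo `p ^ r`, and `M(σ) M(τ) - M(τ) M(σ) = ((N(v) - 1) / p ^ r) M(τ)` otherwise, and that
`M` has a common eigenvector on every decomposition group above `p`. Then all matrices `M(g)` have a
common eigenvector. -/
def NoTuple (p r : ℕ) (S : Set (Ideal (𝓞 K))) : Prop :=
  ∀ M : AbsGal K → Matrix (Fin 2) (Fin 2) κ, (∀ g h, M (g * h) = M g + M h) →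
    IsOpen {g | M g = 0} → (∀ g, (M g).trace = 0) →
    (∀ P : Ideal (ZBar K), P.IsMaximal → below P ∉ withP p S → ∀ τ, InInertia P τ → M τ = 0) →
    (∀ P : Ideal (ZBar K), P.IsMaximal → below P ∈ S → ∀ τ, InInertia P τ →
      M τ * M τ = 0 ∧ (¬ p ^ r ∣ Ideal.absNorm (below P) - 1 → M τ = 0) ∧
      ∀ σ, IsFrobenius P σ →
        M σ * M τ - M τ * M σ = (((Ideal.absNorm (below P) - 1) / p ^ r : ℕ) : κ) • M τ) →
    (∀ P : Ideal (ZBar K), P.IsMaximal → (p : ZBar K) ∈ P → Eigen M (Decomposition P)) →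
    Eigen M Set.univ

variable {κ}

/-- if `x` is ramified at a prime `P` above `v ∈ S`, then `N(v)` is `1` modulo `p ^ r` and `z` takes
the value `s (N(v) - 1) / p ^ r` at the Frobenius elements -/
def Linked (p r : ℕ) (S : Set (Ideal (𝓞 K))) (s : κ) (x z : AbsGal K →* Multiplicative κ) : Prop :=
  ∀ P : Ideal (ZBar K), P.IsMaximal → below P ∈ S → (∃ τ, InInertia P τ ∧ x τ ≠ 1) →
    p ^ r ∣ Ideal.absNorm (below P) - 1 ∧ ∀ σ, IsFrobenius P σ →
      Multiplicative.toAdd (z σ) = s * (((Ideal.absNorm (below P) - 1) / p ^ r : ℕ) : κ)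

variable (κ)

/-- There are no characters `x`, `y`, `z` with `x` and `y` nonzero such that: `z` is unramified at
`S`; `z` takes the values `(N(v) - 1) / p ^ r` and `-(N(v) - 1) / p ^ r` at the Frobenius elements of
the primes of `S` ramified for `x` and `y`, respectively; there are a decomposition group above `p`
on which `y` is trivial, and an element of it in the kernel of `x` and not of `z`; and `x`, `y`, `z`
are linearly dependent on every decomposition group above `p`. -/
def NoTriple (p r : ℕ) (S : Set (Ideal (𝓞 K))) : Prop :=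
  ∀ x y z : AbsGal K →* Multiplicative κ, IsCharacter κ p S x → IsCharacter κ p S y →
    IsCharacter κ p S z →
    (∀ P : Ideal (ZBar K), P.IsMaximal → below P ∈ S → ∀ τ, InInertia P τ → z τ = 1) →
    Linked p r S 1 x z → Linked p r S (-1) y z →
    (∃ P : Ideal (ZBar K), P.IsMaximal ∧ (p : ZBar K) ∈ P ∧ (∀ g ∈ Decomposition P, y g = 1) ∧
      ∃ γ ∈ Decomposition P, x γ = 1 ∧ z γ ≠ 1) →
    (∀ P : Ideal (ZBar K), P.IsMaximal → (p : ZBar K) ∈ P →
      ∃ a b c : κ, ¬ (a = 0 ∧ b = 0 ∧ c = 0) ∧ ∀ g ∈ Decomposition P,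
        a * Multiplicative.toAdd (x g) + b * Multiplicative.toAdd (y g) +
          c * Multiplicative.toAdd (z g) = 0) →
    (∀ g, x g = 1) ∨ ∀ g, y g = 1

variable {κ}

/-- The field `K` has only one extension of degree `p` which is unramified outside `p` and normal
over `K`: `ψ` is a character of order `p` unramified outside `p`, and not trivial on all
decomposition groups above `p`, and every character unramified outside `p` is a power of it. -/
structure OneExtension (p : ℕ) (ψ : AbsGal K →* Multiplicative (ZMod p)) : Prop where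
  isOpen : IsOpen (ψ.ker : Set (AbsGal K))
  unramified : UnramifiedOutside (withP p ∅) ψ
  nonsplit : ∃ P : Ideal (ZBar K), P.IsMaximal ∧ (p : ZBar K) ∈ P ∧
    ∃ g ∈ Decomposition P, ψ g ≠ 1
  unique : ∀ f : AbsGal K →* Multiplicative (ZMod p), IsOpen (f.ker : Set (AbsGal K)) →
    UnramifiedOutside (withP p ∅) f → ∃ n : ℕ, ∀ g, f g = ψ g ^ n

/-- at most one prime `v` in `S` satisfies `N(v) = 1` modulo `p`, and its Frobenius elements are not
in the kernel of `ψ` -/
def OnePrime (p : ℕ) (S : Set (Ideal (𝓞 K))) (ψ : AbsGal K →* Multiplicative (ZMod p)) : Prop :=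
  (∀ v ∈ S, ∀ w ∈ S, p ∣ Ideal.absNorm v - 1 → p ∣ Ideal.absNorm w - 1 → v = w) ∧
  ∀ P : Ideal (ZBar K), P.IsMaximal → below P ∈ S → p ∣ Ideal.absNorm (below P) - 1 →
    ∀ σ, IsFrobenius P σ → ψ σ ≠ 1

/-- for the primes `v` in `S` with `N(v) = 1` modulo `p`, exactly `p ^ s` divides `N(v) - 1`, and `ψ`
takes the value `(N(v) - 1) / p ^ s` at the Frobenius elements (for instance, `ψ` is given by the
action on the roots of unity of order `p ^ (s + 1)` and `K(ζ_p)` contains those of order `p ^ s`) -/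
def NormValues (p s : ℕ) (S : Set (Ideal (𝓞 K))) (ψ : AbsGal K →* Multiplicative (ZMod p)) : Prop :=
  ∀ P : Ideal (ZBar K), P.IsMaximal → below P ∈ S → p ∣ Ideal.absNorm (below P) - 1 →
    p ^ s ∣ Ideal.absNorm (below P) - 1 ∧ ¬ p ^ (s + 1) ∣ Ideal.absNorm (below P) - 1 ∧
    ∀ σ, IsFrobenius P σ →
      Multiplicative.toAdd (ψ σ) = (((Ideal.absNorm (below P) - 1) / p ^ s : ℕ) : ZMod p)

/-- The elements of `D` preserve a line (over the fraction field of `A`); for `D` the whole group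
this says that `ρ` is reducible over the fraction field. -/
def StableLine {A : Type} [CommRing A] (ρ : AbsGal K →* GL (Fin 2) A) (D : Set (AbsGal K)) : Prop :=
  ∃ v : Fin 2 → A, v ≠ 0 ∧ ∀ g ∈ D, ∃ c : A, (ρ g : Matrix (Fin 2) (Fin 2) A) *ᵥ v = c • v

/-- There is a character `a` with values in the residue field such that `a g` is the only
eigenvalue of the reduction of `ρ g`, for all `g`; by Brauer and Nesbitt this says that the
semisimplification of the reduction of `ρ` is the sum of two copies of `a`. -/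
def ResiduallyScalar {A : Type} [CommRing A] [IsLocalRing A] (ρ : AbsGal K →* GL (Fin 2) A) :
    Prop :=
  ∃ a : AbsGal K →* (ResidueField A)ˣ, ∀ g,
    IsNilpotent ((ρ g : Matrix (Fin 2) (Fin 2) A).map (residue A) -
      (a g : ResidueField A) • (1 : Matrix (Fin 2) (Fin 2) (ResidueField A)))

end

/-- `A` is complete, its topology is the adic topology, the residue field is finite of characteristic
`p`, and `p` has valuation `e` (for instance `A = ℤ_p`, `e = 1`) -/
structure Coefficients (A : Type) [CommRing A] [IsDomain A] [IsDiscreteValuationRing A]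
    [TopologicalSpace A] (p e : ℕ) : Prop where
  complete : IsAdicComplete (maximalIdeal A) A
  adic : IsAdic (maximalIdeal A)
  residue : Finite (ResidueField A)
  pos : 1 ≤ e
  mem : (p : A) ∈ maximalIdeal A ^ e
  notMem : (p : A) ∉ maximalIdeal A ^ (e + 1)

/-- Every continuous representation `ρ : G_K → GL_2(A)` which is unramified outside `S` and `p`,
residually scalar up to semisimplification, unipotent on the inertia groups at the primes `v` in `S`
with `N(v) = 1` modulo `p`, and has a stable line on every decomposition group above `p`, is reducible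
over the fraction field of `A`. If `2 e < p - 1`, the condition on the inertia groups at the primes in
`S` is not needed. -/
def OrdinaryReducible {K : Type} [Field K] [NumberField K] (A : Type) [CommRing A] [IsDomain A]
    [IsDiscreteValuationRing A] [TopologicalSpace A] (p e : ℕ) (S : Set (Ideal (𝓞 K))) : Prop :=
  ∀ ρ : AbsGal K →* GL (Fin 2) A, Continuous ρ → UnramifiedOutside (withP p S) ρ →
    ResiduallyScalar ρ →
    (2 * e < p - 1 ∨ ∀ P : Ideal (ZBar K), P.IsMaximal → below P ∈ S →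
      p ∣ Ideal.absNorm (below P) - 1 →
      ∀ τ, InInertia P τ → ((ρ τ : Matrix (Fin 2) (Fin 2) A) - 1) ^ 2 = 0) →
    (∀ P : Ideal (ZBar K), P.IsMaximal → (p : ZBar K) ∈ P → StableLine ρ (Decomposition P)) →
    StableLine ρ Set.univ

section

open Pool.Agent.Q15.FMScal Pool.Agent.Q15.FM2A Pool.Agent.Q15.FM2B Pool.Agent.Q15.FM2C
  Pool.Agent.Q15.FM2D Pool.Agent.Q15.FM3A Pool.Agent.Q15.FM3B Pool.Agent.Q15.FM3C
  Pool.Agent.Q15.FM3D Pool.Agent.Q15.FM3E
open Pool.Agent.TH831.OT (wed wed_mulVec wed_self wed_add_left wed_smul_left wed_smul_right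
  eig_of_wed)

variable {K : Type} [Field K] [NumberField K] {κ : Type} [Field κ]

theorem eigen_iff {M : Matrix (Fin 2) (Fin 2) κ}
    {v : Fin 2 → κ} (hv : v ≠ 0) : (∃ c : κ, M *ᵥ v = c • v) ↔ wed (M *ᵥ v) v = 0 := by
  constructor
  · rintro ⟨c, hc⟩
    rw [hc, wed_smul_left, wed_self, mul_zero]
  · exact eig_of_wed hv

theorem chr_iff {p : ℕ} {S : Set (Ideal (𝓞 K))} {x : AbsGal K →* Multiplicative κ} :
    IsCharacter κ p S x ↔ Chr κ (UrS (wp p S)) x := by
  constructor
  · rintro ⟨h1, h2⟩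
    refine ⟨h1, ?_⟩
    rintro τ ⟨P, hP, hPS, hτ⟩
    exact h2 P hP hPS τ hτ
  · rintro ⟨h1, h2⟩
    exact ⟨h1, fun P hP hPS τ hτ => h2 τ ⟨P, hP, hPS, hτ⟩⟩

theorem exists_frob {P : Ideal (ZBar K)} (hP : P.IsMaximal) : ∃ σ, IsFrobenius P σ :=
  Pool.Agent.Q15.FMNT.exists_frobAt hP (Pool.Agent.Q15.FMMain.cm_ne_bot hP)

theorem np_of {p : ℕ} {S : Set (Ideal (𝓞 K))} (h : NoPair κ p S) :
    NPo κ (UrS (wp p S)) (TS S) (DP K p) := by
  intro x y hx hy h1 h2 hD
  refine h x y (chr_iff.2 hx) (chr_iff.2 hy) ?_ ?_ ?_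
  · rintro P hP hPS ⟨τ, hτ, hne⟩ σ hσ
    exact (h1 τ σ _ ⟨P, hP, hPS, hτ, hσ, rfl⟩ hne).2
  · rintro P hP hPS ⟨τ, hτ, hne⟩ σ hσ
    exact (h2 τ σ _ ⟨P, hP, hPS, hτ, hσ, rfl⟩ hne).2
  · intro P hP hpP
    exact hD _ ⟨P, hP, hpP, rfl⟩

theorem nto_of {S : Set (Ideal (𝓞 K))} {p r : ℕ} (h : NoTuple κ p r S) :
    NTo κ (UrS (wp p S)) (TS S) (DP K p) p r := by
  intro X hX htr hsq hz hrel hD
  have h0 : ∀ g, mat X g = 0 ↔ ∀ i j, X i j g = 1 := by
    intro g
    constructor
    · intro h i j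
      have h1 := congrFun (congrFun h i) j
      exact Multiplicative.toAdd.injective (h1.trans toAdd_one.symm)
    · exact mat_eq_zero X
  have key : IsOpen {g | mat X g = 0} := by
    have h1 : {g | mat X g = 0} = ((((X 0 0).ker ⊓ (X 0 1).ker) ⊓ ((X 1 0).ker ⊓ (X 1 1).ker) :
        Subgroup (AbsGal K)) : Set (AbsGal K)) := by
      ext g
      show mat X g = 0 ↔ _
      rw [h0]
      constructor
      · intro h
        exact ⟨⟨h 0 0, h 0 1⟩, h 1 0, h 1 1⟩
      · rintro ⟨⟨h00, h01⟩, h10, h11⟩ i j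
        fin_cases i <;> fin_cases j
        · exact h00
        · exact h01
        · exact h10
        · exact h11
    rw [h1]
    exact ((hX 0 0).op.inter (hX 0 1).op).inter ((hX 1 0).op.inter (hX 1 1).op)
  obtain ⟨w, hw, hww⟩ := h (mat X) (mat_mul X) key
    (fun g => by rw [Matrix.trace_fin_two]; exact htr g)
    (fun P hP hPS τ hτ => mat_eq_zero X fun i j => (hX i j).ur τ ⟨P, hP, hPS, hτ⟩)
    (fun P hP hPS τ hτ => by
      obtain ⟨σ₀, hσ₀⟩ := exists_frob hP
      refine ⟨hsq τ σ₀ _ ⟨P, hP, hPS, hτ, hσ₀, rfl⟩, hz τ σ₀ _ ⟨P, hP, hPS, hτ, hσ₀, rfl⟩, ?_⟩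
      intro σ hσ
      exact hrel τ σ _ ⟨P, hP, hPS, hτ, hσ, rfl⟩)
    (fun P hP hpP => by
      obtain ⟨v, hv, hvl⟩ := hD _ ⟨P, hP, hpP, rfl⟩
      exact ⟨v, hv, fun g hg => (eigen_iff hv).2 (hvl g hg)⟩)
  exact ⟨w, hw, fun g => (eigen_iff hw).1 (hww g trivial)⟩

theorem ntr_of {S : Set (Ideal (𝓞 K))} {p r : ℕ} (h : NoTriple κ p r S) :
    NTr κ (UrS (wp p S)) (TS S) (DP K p) p r := by
  intro x y z hx hy hz hzT hxT hyT hD hdep
  refine h x y z (chr_iff.2 hx) (chr_iff.2 hy) (chr_iff.2 hz) ?_ ?_ ?_ ?_ ?_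
  · intro P hP hPS τ hτ
    obtain ⟨σ, hσ⟩ := exists_frob hP
    exact hzT τ σ _ ⟨P, hP, hPS, hτ, hσ, rfl⟩
  · rintro P hP hPS ⟨τ, hτ, hne⟩
    obtain ⟨σ₀, hσ₀⟩ := exists_frob hP
    refine ⟨(hxT τ σ₀ _ ⟨P, hP, hPS, hτ, hσ₀, rfl⟩ hne).1, fun σ hσ => ?_⟩
    rw [one_mul]
    exact (hxT τ σ _ ⟨P, hP, hPS, hτ, hσ, rfl⟩ hne).2
  · rintro P hP hPS ⟨τ, hτ, hne⟩
    obtain ⟨σ₀, hσ₀⟩ := exists_frob hP
    refine ⟨(hyT τ σ₀ _ ⟨P, hP, hPS, hτ, hσ₀, rfl⟩ hne).1, fun σ hσ => ?_⟩
    rw [neg_one_mul]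
    exact (hyT τ σ _ ⟨P, hP, hPS, hτ, hσ, rfl⟩ hne).2
  · obtain ⟨_, ⟨P, hP, hpP, rfl⟩, h1, γ, hγ, h2, h3⟩ := hD
    exact ⟨P, hP, hpP, h1, γ, hγ, h2, h3⟩
  · intro P hP hpP
    exact hdep _ ⟨P, hP, hpP, rfl⟩

theorem wp_empty (p : ℕ) : wp p (∅ : Set (Ideal (𝓞 K))) = {v : Ideal (𝓞 K) | (p : 𝓞 K) ∈ v} := by
  ext v
  show (v ∈ (∅ : Set (Ideal (𝓞 K))) ∨ (p : 𝓞 K) ∈ v) ↔ (p : 𝓞 K) ∈ v
  simp

theorem one_of {p : ℕ} {ψ : AbsGal K →* Multiplicative (ZMod p)} (h : OneExtension p ψ) :
    One p ψ := by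
  refine ⟨h.isOpen, ?_, ?_, ?_⟩
  · rintro τ ⟨P, hP, hPS, hτ⟩
    rw [← wp_empty] at hPS
    exact h.unramified P hP hPS τ hτ
  · obtain ⟨P, hP, hpP, g, hg, hne⟩ := h.nonsplit
    exact ⟨_, ⟨P, hP, hpP, rfl⟩, g, hg, hne⟩
  · intro f hf hur
    refine h.unique f hf fun P hP hPS τ hτ => hur τ ⟨P, hP, ?_, hτ⟩
    rw [← wp_empty]
    exact hPS

end

/-- **Main theorem.** -/
theorem result (p : ℕ) [Fact p.Prime] (hp2 : p ≠ 2) (K : Type) [Field K] [NumberField K]
    (S : Set (Ideal (𝓞 K))) (hS : ∀ v ∈ S, (p : 𝓞 K) ∉ v) (A : Type) [CommRing A] [IsDomain A]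
    [IsDiscreteValuationRing A] [TopologicalSpace A] (e : ℕ) (hA : Coefficients A p e)
    (h : (NoPair (ResidueField A) p S ∧
        (∀ r, (r ≠ 0 ∨ e ≠ 1) → NoTuple (ResidueField A) p r S) ∧
        ((∀ r, (r ≠ 0 ∨ e ≠ 1) → NoTriple (ResidueField A) p r S) ∨
          ∃ (s : ℕ) (ψ : AbsGal K →* Multiplicative (ZMod p)),
            OneExtension p ψ ∧ NormValues p s S ψ)) ∨
      ∃ ψ : AbsGal K →* Multiplicative (ZMod p), OneExtension p ψ ∧ OnePrime p S ψ) :
    OrdinaryReducible A p e S := by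
  have hp : p.Prime := Fact.out
  intro ρ hρ hur hres hun hline
  have := hA.complete
  have hpm : (p : A) ∈ maximalIdeal A := by
    have h1 := Ideal.pow_le_pow_right hA.pos hA.mem
    rwa [pow_one] at h1
  have hchar : CharP (ResidueField A) p := Pool.Agent.TH831.OE.charP_res hp hpm
  have key : Pool.Agent.TH831.OE.HasLine ρ Set.univ := by
    have main := fun h1 h2 h3 => Pool.Agent.Q15.FM3D.main (A := A) hp hp2 S hS hA.adic hA.residue
      hA.pos hA.mem hA.notMem h1 h2 h3 ρ hρ (fun τ ⟨P, hP, hPS, hτ⟩ => hur P hP hPS τ hτ) hres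
      (hun.imp_right fun h1 P hP hPS hd τ hτ => by
        have h2 := h1 P hP hPS hd τ hτ
        rw [pow_two] at h2
        exact h2) (fun P hP hpP => by
        obtain ⟨v, hv, hvl⟩ := hline P hP hpP
        refine ⟨v, hv, fun g hg => ?_⟩
        obtain ⟨c, hc⟩ := hvl g hg
        have e1 : Pool.Agent.TH831.OE.mt (ρ g) *ᵥ v = c • v := hc
        rw [e1, Pool.Agent.TH831.OT.wed_smul_left, Pool.Agent.TH831.OT.wed_self, mul_zero])
    rcases h with ⟨h1, h2, h3 | ⟨s, ψ, h3, h4⟩⟩ | ⟨ψ, h1, h2, h3⟩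
    · exact main (np_of h1) (fun r hr => nto_of (h2 r hr)) (fun r hr => ntr_of (h3 r hr))
    · exact main (np_of h1) (fun r hr => nto_of (h2 r hr))
        (fun r _ => Pool.Agent.Q15.FM3E.ntr_norm hp2 (one_of h3) ⟨hS, h4⟩ r)
    · have h4 := one_of h1
      have h5 : Pool.Agent.Q15.FM3E.Cond p S ψ := ⟨hS, h2, h3⟩
      exact main (Pool.Agent.Q15.FM3E.npo h4 h5) (fun r _ => Pool.Agent.Q15.FM3E.nto h4 h5 r)
        (fun r _ => Pool.Agent.Q15.FM3E.ntr hp2 h4 h5 r)
  -- from the wedge form to eigenvectors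
  obtain ⟨v, hv, hl⟩ := key
  obtain ⟨x, w, hx, rfl, hw⟩ := Pool.Agent.TH831.OE.exists_primitive
    (Pool.Agent.TH831.OE.bas A) v hv
  refine ⟨w, fun h => hv (by rw [h, smul_zero]), fun g _ => ?_⟩
  have e1 : Pool.Agent.TH831.OT.wed (Pool.Agent.TH831.OE.mt (ρ g) *ᵥ (x • w)) (x • w) = 0 :=
    hl g trivial
  rw [Matrix.mulVec_smul, Pool.Agent.TH831.OT.wed_smul_left,
    Pool.Agent.TH831.OT.wed_smul_right] at e1
  have e2 := (mul_eq_zero.1 ((mul_eq_zero.1 e1).resolve_left hx)).resolve_left hx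
  set M := (ρ g : Matrix (Fin 2) (Fin 2) A) with hM
  have e3 : (M *ᵥ w) 0 * w 1 - (M *ᵥ w) 1 * w 0 = 0 := e2
  rcases hw with h | h
  · obtain ⟨y, hy⟩ := (Pool.Agent.TH831.OE.bas A).unit _ h
    have e4 : ((y⁻¹ : Aˣ) : A) * w 0 = 1 := by rw [← hy, Units.inv_mul]
    refine ⟨((y⁻¹ : Aˣ) : A) * (M *ᵥ w) 0, ?_⟩
    funext i
    fin_cases i
    · show (M *ᵥ w) 0 = ((y⁻¹ : Aˣ) : A) * (M *ᵥ w) 0 * w 0
      linear_combination -(M *ᵥ w) 0 * e4
    · show (M *ᵥ w) 1 = ((y⁻¹ : Aˣ) : A) * (M *ᵥ w) 0 * w 1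
      linear_combination -(M *ᵥ w) 1 * e4 - ((y⁻¹ : Aˣ) : A) * e3
  · obtain ⟨y, hy⟩ := (Pool.Agent.TH831.OE.bas A).unit _ h
    have e4 : ((y⁻¹ : Aˣ) : A) * w 1 = 1 := by rw [← hy, Units.inv_mul]
    refine ⟨((y⁻¹ : Aˣ) : A) * (M *ᵥ w) 1, ?_⟩
    funext i
    fin_cases i
    · show (M *ᵥ w) 0 = ((y⁻¹ : Aˣ) : A) * (M *ᵥ w) 1 * w 0
      linear_combination -(M *ᵥ w) 0 * e4 + ((y⁻¹ : Aˣ) : A) * e3
    · show (M *ᵥ w) 1 = ((y⁻¹ : Aˣ) : A) * (M *ᵥ w) 1 * w 1
      linear_combination -(M *ᵥ w) 1 * e4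

end Pool.Agent.Results.MP_f68ac8_nt.OrdinaryNumberFields
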