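import Pool.Agent.Q15.FMMain
import Pool.Agent.W215.FM.Gen

/-!
# Weight zero representations which are trivial modulo a power of `p`, over quadratic extensions

Let `k` be a number field, `p` a prime, `A` a discrete valuation ring with residue characteristic `p`
in which `p` has valuation `e0`.

* (1) Let `p` be odd, `K / k` a quadratic extension such that `k` has no unramified extension of
  degree `p` and the unramified abelian `p`-extensions of `K` have exponent dividing `p ^ a`. Let `S`
  be any set of primes `v` of `k`, not above `p`, whose norm is neither `1` modulo `p` nor `-1` modulo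
  `p ^ (b + 1)`. Then every continuous representation `ρ : G_K → GL_n(A)`, `n` arbitrary, which is
  unramified outside `S` and `p`, has finite inertia images above `p` (that is, is de Rham with
  Hodge-Tate weights zero there) and is trivial modulo the `j`-th power of the maximal ideal, where
  `(a + b) e0 < 2 j` and `e0 < (p - 1) j`, is trivial.
* (2) The same for Galois extensions `K / k` with an element `γ` which acts by a scalar `c` of order
  `d` modulo `p`, with `(a + b) e0 < d j`; and for representations of dimension `n` with unipotent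
  reduction if `n (a + b) e0 < d`.
* (3) The hypothesis on `k` in (1) holds for `k = ℚ`, and `K = ℚ(ζ_3)`, `p = 3` is an example with
  `a = 0`.
-/

set_option autoImplicit false

namespace Pool.Agent.Results.MP_f68ac8_nt.QuadraticSubfields

open NumberField IsLocalRing

/-- the absolute Galois group of the field `k`, with the Krull topology -/
abbrev AbsGal (k : Type) [Field k] : Type := Gal(AlgebraicClosure k/k)

/-- the ring of all algebraic integers -/
abbrev ZBar (k : Type) [Field k] : Type := 𝓞 (AlgebraicClosure k)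

section

variable {k : Type} [Field k] [NumberField k]

/-- `τ` lies in the inertia group at the prime ideal `P` of the ring of all algebraic integers -/
def InInertia (P : Ideal (ZBar k)) (τ : AbsGal k) : Prop := ∀ x : ZBar k, τ • x - x ∈ P

/-- `σ` acts as `x ↦ x ^ q` modulo `P`; it is a Frobenius element at `P` if `q` is the norm of the
prime of `k` below `P` -/
def IsFrobenius (q : ℕ) (P : Ideal (ZBar k)) (σ : AbsGal k) : Prop :=
  ∀ x : ZBar k, σ • x - x ^ q ∈ P

/-- the prime of `k` below `P` -/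
noncomputable def below (P : Ideal (ZBar k)) : Ideal (𝓞 k) :=
  P.comap (algebraMap (𝓞 k) (ZBar k))

/-- The absolute Galois group of `K` is `K.fixingSubgroup`. The homomorphism `f` on it is trivial on
all its inertia groups: its kernel belongs to an everywhere unramified extension of `K`. -/
def Unramified {K : IntermediateField k (AlgebraicClosure k)} {E : Type} [Group E]
    (f : K.fixingSubgroup →* E) : Prop :=
  ∀ P : Ideal (ZBar k), P.IsMaximal → ∀ τ : K.fixingSubgroup, InInertia P (τ : AbsGal k) → f τ = 1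

/-- All finite abelian extensions of `K` of `p`-power degree which are unramified at all finite places
have exponent dividing `p ^ a`. -/
def UnramifiedExponent (K : IntermediateField k (AlgebraicClosure k)) (p a : ℕ) : Prop :=
  ∀ (E : Type) [CommGroup E] [Finite E], IsPGroup p E → ∀ f : K.fixingSubgroup →* E,
    IsOpen (f.ker : Set K.fixingSubgroup) → Unramified f → ∀ g, f g ^ p ^ a = 1

variable {K : IntermediateField k (AlgebraicClosure k)} {A : Type} [CommRing A] {n : ℕ}

/-- `ρ` is unramified at the places of `K` above the primes of `k` which are not in `S` -/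
def UnramifiedOutside (S : Set (Ideal (𝓞 k))) (ρ : K.fixingSubgroup →* GL (Fin n) A) : Prop :=
  ∀ P : Ideal (ZBar k), P.IsMaximal → below P ∉ S →
    ∀ τ : K.fixingSubgroup, InInertia P (τ : AbsGal k) → ρ τ = 1

/-- `ρ` is unramified at the places of `K` which do not divide `p` and the primes in `S`, and the
inertia groups at the places above `p` have finite image. -/
def WeightZeroOutside (p : ℕ) (S : Set (Ideal (𝓞 k))) (ρ : K.fixingSubgroup →* GL (Fin n) A) :
    Prop :=
  ∀ P : Ideal (ZBar k), P.IsMaximal →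
    ((p : ZBar k) ∈ P → (ρ '' {τ : K.fixingSubgroup | InInertia P (τ : AbsGal k)}).Finite) ∧
    ((p : ZBar k) ∉ P → below P ∉ S →
      ∀ τ : K.fixingSubgroup, InInertia P (τ : AbsGal k) → ρ τ = 1)

/-- `ρ` is trivial modulo the `j`-th power of the maximal ideal -/
def TrivialMod [IsLocalRing A] (j : ℕ) (ρ : K.fixingSubgroup →* GL (Fin n) A) : Prop :=
  ∀ g s t, ((ρ g : Matrix (Fin n) (Fin n) A) - 1) s t ∈ maximalIdeal A ^ j

/-- every `ρ g` is unipotent modulo the maximal ideal -/
def ResiduallyUnipotent [IsLocalRing A] (ρ : K.fixingSubgroup →* GL (Fin n) A) : Prop :=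
  ∀ g, ∃ M : ℕ, ∀ s t, (((ρ g : Matrix (Fin n) (Fin n) A) - 1) ^ M) s t ∈ maximalIdeal A

end

/-- the topology of `A` is the adic topology, the residue field is finite of characteristic `p`, and
`p` has valuation `e0` (for instance `A = ℤ_p`, `e0 = 1`) -/
structure Coefficients (A : Type) [CommRing A] [IsDomain A] [IsDiscreteValuationRing A]
    [TopologicalSpace A] (p e0 : ℕ) : Prop where
  adic : IsAdic (maximalIdeal A)
  residue : Finite (ResidueField A)
  pos : 1 ≤ e0
  mem : (p : A) ∈ maximalIdeal A ^ e0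
  notMem : (p : A) ∉ maximalIdeal A ^ (e0 + 1)

section

variable {k : Type} [Field k] [NumberField k]

/-- Every continuous representation of `G_K` over a ring `A` of coefficients, of any dimension, which
is unramified outside `S` and `p`, has finite inertia images above `p`, and is trivial modulo the
`j`-th power of the maximal ideal, where `e * e0 < N * j` and `e0 < (p - 1) * j`, is trivial. -/
def RigidTrivial (K : IntermediateField k (AlgebraicClosure k)) (p : ℕ) (S : Set (Ideal (𝓞 k)))
    (e N : ℕ) : Prop :=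
  ∀ (A : Type) [CommRing A] [IsDomain A] [IsDiscreteValuationRing A] [TopologicalSpace A]
    (e0 j n : ℕ), Coefficients A p e0 → e * e0 < N * j → e0 < (p - 1) * j →
    ∀ ρ : K.fixingSubgroup →* GL (Fin n) A, Continuous ρ → WeightZeroOutside p S ρ →
      TrivialMod j ρ → ∀ g, ρ g = 1

/-- Every continuous representation of `G_K` over a ring `A` of coefficients which is unramified
outside `S`, has unipotent reduction and dimension `n` with `n * e * e0 < N` is trivial. -/
def RigidUnipotent (K : IntermediateField k (AlgebraicClosure k)) (p : ℕ) (S : Set (Ideal (𝓞 k)))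
    (e N : ℕ) : Prop :=
  ∀ (A : Type) [CommRing A] [IsDomain A] [IsDiscreteValuationRing A] [TopologicalSpace A]
    (e0 n : ℕ), Coefficients A p e0 → n * e * e0 < N →
    ∀ ρ : K.fixingSubgroup →* GL (Fin n) A, Continuous ρ → UnramifiedOutside S ρ →
      ResiduallyUnipotent ρ → ∀ g, ρ g = 1

/-- the primes in `S` do not lie above `p` and have norm neither `1` modulo `p` nor `-1` modulo
`p ^ (b + 1)` -/
def MinusPrimes (p b : ℕ) (S : Set (Ideal (𝓞 k))) : Prop :=
  ∀ v ∈ S, (p : 𝓞 k) ∉ v ∧ ¬ Ideal.absNorm v ≡ 1 [MOD p] ∧ ¬ p ^ (b + 1) ∣ Ideal.absNorm v + 1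

/-- the primes `v` in `S` do not lie above `p`, have norm `N(v) ≡ c` modulo `p`, `N(v) ^ d ≢ 1` modulo
`p ^ (b + 1)`, and Frobenius elements which act on `K` as `γ` does -/
def FrobeniusPrimes (K : IntermediateField k (AlgebraicClosure k)) (γ : AbsGal k) (p b c d : ℕ)
    (S : Set (Ideal (𝓞 k))) : Prop :=
  ∀ v ∈ S, (p : 𝓞 k) ∉ v ∧ Ideal.absNorm v ≡ c [MOD p] ∧ ¬ p ^ (b + 1) ∣ Ideal.absNorm v ^ d - 1 ∧
    ∀ P : Ideal (ZBar k), P.IsMaximal → below P = v →
      ∃ σ : AbsGal k, IsFrobenius (Ideal.absNorm v) P σ ∧ ∀ x ∈ K, σ x = γ x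

/-- `γ` acts by `c` on the unramified homomorphisms from `G_K` to `ℤ/p`: that is,
`f (γ g γ⁻¹) = f (g) ^ c` -/
def ActsBy (K : IntermediateField k (AlgebraicClosure k)) (γ : AbsGal k) (p c : ℕ) : Prop :=
  ∀ f : K.fixingSubgroup →* Multiplicative (ZMod p), IsOpen (f.ker : Set K.fixingSubgroup) →
    Unramified f → ∀ g h : K.fixingSubgroup, (h : AbsGal k) = γ * g * γ⁻¹ → f h = f g ^ c

end

/-- the field `ℚ(ζ_3)` -/
noncomputable def Q3 : IntermediateField ℚ (AlgebraicClosure ℚ) :=
  IntermediateField.adjoin ℚ {z : AlgebraicClosure ℚ | z ^ 3 = 1}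

theorem below_eq {k : Type} [Field k] [NumberField k] (P : Ideal (ZBar k)) :
    below P = Pool.Agent.W571.FM.cm P := rfl

theorem unrExp {k : Type} [Field k] [NumberField k] {K : IntermediateField k (AlgebraicClosure k)}
    {p a : ℕ} (h : UnramifiedExponent K p a) :
    Pool.Agent.Q15.FMScal.UnrExp K.fixingSubgroup p a :=
  fun E _ _ hE f hf hu => h E hE f hf hu

theorem base {k : Type} [Field k] [NumberField k] {p : ℕ} [Fact p.Prime]
    (h : UnramifiedExponent (⊥ : IntermediateField k (AlgebraicClosure k)) p 0)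
    (f : AbsGal k →* Multiplicative (ZMod p)) (hf : IsOpen (f.ker : Set (AbsGal k)))
    (hu : ∀ P : Ideal (ZBar k), P.IsMaximal → ∀ τ : AbsGal k, InInertia P τ → f τ = 1)
    (g : AbsGal k) : f g = 1 := by
  have hg : g ∈ (⊥ : IntermediateField k (AlgebraicClosure k)).fixingSubgroup := by
    rw [IntermediateField.fixingSubgroup_bot]
    trivial
  have h1 := h _ (Pool.Agent.Q15.FMScal.pgroup_zmod p)
    (f.comp (⊥ : IntermediateField k (AlgebraicClosure k)).fixingSubgroup.subtype)
    (hf.preimage continuous_subtype_val) (fun P hP τ hτ => hu P hP τ hτ) ⟨g, hg⟩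
  rw [pow_zero, pow_one] at h1
  exact h1

theorem regOrd {A : Type} [CommRing A] [IsDomain A] [IsDiscreteValuationRing A]
    [TopologicalSpace A] {p e0 : ℕ} (h : Coefficients A p e0) : Pool.Agent.W569.UF.RegOrd A p e0 :=
  Pool.Agent.W569.UF.regOrd_dvr h.mem h.notMem

theorem mem_max {A : Type} [CommRing A] [IsDomain A] [IsDiscreteValuationRing A]
    [TopologicalSpace A] {p e0 : ℕ} (h : Coefficients A p e0) : (p : A) ∈ maximalIdeal A := by
  have h1 := Ideal.pow_le_pow_right h.pos h.mem
  rwa [pow_one] at h1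

theorem part1 (p : ℕ) [Fact p.Prime] (hp2 : p ≠ 2) (k : Type) [Field k] [NumberField k]
    (K : IntermediateField k (AlgebraicClosure k)) (hK : Module.finrank k K = 2) (a b : ℕ)
    (hk : UnramifiedExponent (⊥ : IntermediateField k (AlgebraicClosure k)) p 0)
    (hKa : UnramifiedExponent K p a) (S : Set (Ideal (𝓞 k)))
    (hS : ∀ v ∈ S, (p : 𝓞 k) ∉ v ∧ ¬ Ideal.absNorm v ≡ 1 [MOD p] ∧
        ¬ p ^ (b + 1) ∣ Ideal.absNorm v + 1)
    (A : Type) [CommRing A] [IsDomain A] [IsDiscreteValuationRing A] [TopologicalSpace A]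
    (e0 j n : ℕ) (hA : Coefficients A p e0) (hj : (a + b) * e0 < 2 * j) (hj2 : e0 < (p - 1) * j)
    (ρ : K.fixingSubgroup →* GL (Fin n) A) (hρ : Continuous ρ) (hw : WeightZeroOutside p S ρ)
    (ht : TrivialMod j ρ) : ∀ g, ρ g = 1 := by
  have hp : p.Prime := Fact.out
  have hfd : FiniteDimensional k K := Module.finite_of_finrank_pos (by rw [hK]; norm_num)
  have hi : K.fixingSubgroup.index = 2 := by
    rw [← IntermediateField.finrank_eq_fixingSubgroup_index]
    exact hK
  have hHo : IsOpen (K.fixingSubgroup : Set (AbsGal k)) := IntermediateField.fixingSubgroup_isOpen K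
  have hN : K.fixingSubgroup.Normal := Subgroup.normal_of_index_eq_two hi
  obtain ⟨γ, hγ⟩ : ∃ γ : AbsGal k, γ ∉ K.fixingSubgroup := by
    by_contra h
    push Not at h
    have h1 : K.fixingSubgroup = ⊤ := by
      rw [eq_top_iff]
      exact fun x _ => h x
    rw [h1, Subgroup.index_top] at hi
    omega
  have hAct := Pool.Agent.Q15.FMScal.unrAct_of_quadratic hp2
    (fun f hf hu g => base hk f hf hu g) K.fixingSubgroup hHo hi γ hγ
  have hScal := Pool.Agent.Q15.FMScal.scalGen K.fixingSubgroup γ (unrExp hKa) hAct (M := 2)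
    (Subgroup.sq_mem_of_index_two hi _)
    (fun h => hp2 ((Nat.prime_dvd_prime_iff_eq hp Nat.prime_two).1 h)) S
    (Pool.Agent.Q15.FMMain.locS_quadratic K.fixingSubgroup hHo hi γ hγ S hS)
  refine Pool.Agent.Q15.FMMain.main_res (by rw [hi]; norm_num) hScal (fun v hv => (hS v hv).1)
    hA.adic hA.residue (mem_max hA) hA.pos (regOrd hA) (N := 2) (by norm_num) hj hj2 ?_ ρ hρ
    (fun P hP => hw P hP) (fun g s t => ht g s t)
  intro i h2 hi2 h
  have hi' : i = 2 := by omega
  subst hi'
  have h1 := (ZMod.natCast_eq_natCast_iff _ _ _).2 h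
  rw [Nat.cast_pow, Nat.cast_sub hp.one_le, Nat.cast_one, ZMod.natCast_self] at h1
  have h3 : ((2 : ℕ) : ZMod p) = 0 := by
    push_cast
    linear_combination h1
  rw [ZMod.natCast_eq_zero_iff] at h3
  exact hp2 ((Nat.prime_dvd_prime_iff_eq hp Nat.prime_two).1 h3)

theorem part2 (p : ℕ) [Fact p.Prime] (k : Type) [Field k] [NumberField k]
    (K : IntermediateField k (AlgebraicClosure k)) [FiniteDimensional k K] [IsGalois k K]
    (γ : AbsGal k) (c d a b : ℕ) (hd : 0 < d) (ho : orderOf (c : ZMod p) = d)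
    (hγ : ∀ x ∈ K, (γ ^ d) x = x) (hKa : UnramifiedExponent K p a)
    (hact : ∀ f : K.fixingSubgroup →* Multiplicative (ZMod p),
      IsOpen (f.ker : Set K.fixingSubgroup) → Unramified f →
      ∀ g h : K.fixingSubgroup, (h : AbsGal k) = γ * g * γ⁻¹ → f h = f g ^ c)
    (S : Set (Ideal (𝓞 k))) (hS : ∀ v ∈ S, (p : 𝓞 k) ∉ v ∧ Ideal.absNorm v ≡ c [MOD p] ∧
        ¬ p ^ (b + 1) ∣ Ideal.absNorm v ^ d - 1 ∧
        ∀ P : Ideal (ZBar k), P.IsMaximal → below P = v →
          ∃ σ : AbsGal k, IsFrobenius (Ideal.absNorm v) P σ ∧ ∀ x ∈ K, σ x = γ x)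
    (A : Type) [CommRing A] [IsDomain A] [IsDiscreteValuationRing A] [TopologicalSpace A]
    (e0 n : ℕ) (hA : Coefficients A p e0)
    (ρ : K.fixingSubgroup →* GL (Fin n) A) (hρ : Continuous ρ)
    (h : (∃ j : ℕ, (a + b) * e0 < d * j ∧ e0 < (p - 1) * j ∧ WeightZeroOutside p S ρ ∧
          TrivialMod j ρ) ∨
         (n * (a + b) * e0 < d ∧ UnramifiedOutside S ρ ∧ ResiduallyUnipotent ρ)) :
    ∀ g, ρ g = 1 := by
  have hHo : IsOpen (K.fixingSubgroup : Set (AbsGal k)) := IntermediateField.fixingSubgroup_isOpen K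
  have hN : K.fixingSubgroup.Normal := inferInstance
  have hi : K.fixingSubgroup.index ≠ 0 := by
    rw [← IntermediateField.finrank_eq_fixingSubgroup_index]
    exact Module.finrank_pos.ne'
  have hγd : γ ^ d ∈ K.fixingSubgroup := by
    rw [IntermediateField.mem_fixingSubgroup_iff]
    exact hγ
  have hAct : Pool.Agent.Q15.FMScal.UnrAct K.fixingSubgroup p c γ := by
    intro f hf hu g
    exact hact f hf hu g _ (MulAut.conjNormal_apply γ g)
  have hScal := Pool.Agent.Q15.FMScal.scalGen K.fixingSubgroup γ (unrExp hKa) hAct (M := d)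
    hγd (Pool.Agent.Q15.FMMain.not_dvd hd ho) S
    (Pool.Agent.Q15.FMMain.locS_cyclic (b := b) K.fixingSubgroup hHo γ hγd S (fun v hv => by
      obtain ⟨h1, h2, h3, h4⟩ := hS v hv
      refine ⟨h1, h2, h3, fun P hP hPv => ?_⟩
      obtain ⟨σ, hσ, hσγ⟩ := h4 P hP hPv
      refine ⟨σ, hσ, ?_⟩
      have h5 : σ⁻¹ * γ ∈ K.fixingSubgroup := by
        rw [IntermediateField.mem_fixingSubgroup_iff]
        intro x hx
        show σ⁻¹ (γ x) = x
        rw [← hσγ x hx]
        show (σ⁻¹ * σ) x = x
        rw [inv_mul_cancel]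
        rfl
      have h6 := hN.conj_mem _ h5 σ
      have h7 : σ * (σ⁻¹ * γ) * σ⁻¹ = γ * σ⁻¹ := by group
      rwa [h7] at h6))
  rcases h with ⟨j, hj, hj2, hw, ht⟩ | ⟨hn, hur, hres⟩
  · exact Pool.Agent.Q15.FMMain.main_res hi hScal (fun v hv => (hS v hv).1)
      hA.adic hA.residue (mem_max hA) hA.pos (regOrd hA) (N := d) hd hj hj2
      (Pool.Agent.Q15.FMMain.pow_ne hd ho) ρ hρ (fun P hP => hw P hP) (fun g s t => ht g s t)
  · exact Pool.Agent.Q15.FMMain.main_uni hi hScal hA.adic hA.residue (mem_max hA) (regOrd hA) hn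
      (Pool.Agent.Q15.FMMain.pow_ne hd ho) ρ hρ (fun P hP hPS τ hτ => hur P hP hPS τ hτ)
      (fun g => hres g)

theorem part3 (p : ℕ) : UnramifiedExponent (⊥ : IntermediateField ℚ (AlgebraicClosure ℚ)) p 0 := by
  intro E _ _ _ f hf hu g
  rw [pow_zero, pow_one]
  have hmem : ∀ x : AbsGal ℚ,
      x ∈ (⊥ : IntermediateField ℚ (AlgebraicClosure ℚ)).fixingSubgroup := by
    intro x
    rw [IntermediateField.fixingSubgroup_bot]
    trivial
  let F : AbsGal ℚ →* E :=
    { toFun := fun x => f ⟨x, hmem x⟩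
      map_one' := map_one f
      map_mul' := fun x y => map_mul f ⟨x, hmem x⟩ ⟨y, hmem y⟩ }
  have hF : IsOpen (F.ker : Set (AbsGal ℚ)) := by
    exact hf.preimage (f := fun x : AbsGal ℚ => (⟨x, hmem x⟩ :
      (⊥ : IntermediateField ℚ (AlgebraicClosure ℚ)).fixingSubgroup))
      (continuous_id.subtype_mk _)
  exact Pool.Agent.W215.FM.main E F hF (fun P hP τ hτ => hu P hP ⟨τ, hmem τ⟩ hτ) g

theorem part3b : Module.finrank ℚ Q3 = 2 ∧ UnramifiedExponent Q3 3 0 := by
  have : Fact (Nat.Prime 3) := ⟨Nat.prime_three⟩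
  constructor
  · have h := Pool.Agent.W569.UF.Disc.isCyc 3 Nat.prime_three
    have h1 : Module.finrank ℚ (Pool.Agent.W569.UF.Disc.Kc (AlgebraicClosure ℚ) 3) =
        Nat.totient 3 :=
      IsCyclotomicExtension.finrank (n := 3) _
        (Polynomial.cyclotomic.irreducible_rat (by norm_num))
    have h2 : Nat.totient 3 = 2 := by decide
    rw [h2] at h1
    exact h1
  · intro E _ _ hE f hf hu g
    rw [pow_zero, pow_one]
    exact Pool.Agent.W569.UF.noUnr_fin Nat.prime_three
      (Pool.Agent.W569.UF.reg 3 Nat.prime_three (by norm_num)) E hE f hf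
      (fun P hP τ hτ => hu P hP τ hτ) g

theorem result :
    -- (1) quadratic extensions
    (∀ (p : ℕ) [Fact p.Prime], p ≠ 2 → ∀ (k : Type) [Field k] [NumberField k]
      (K : IntermediateField k (AlgebraicClosure k)), Module.finrank k K = 2 → ∀ a b : ℕ,
      UnramifiedExponent (⊥ : IntermediateField k (AlgebraicClosure k)) p 0 →
      UnramifiedExponent K p a → ∀ S : Set (Ideal (𝓞 k)), MinusPrimes p b S →
        RigidTrivial K p S (a + b) 2) ∧
    -- (2) extensions on which an element `γ` acts by a scalar of order `d`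
    (∀ (p : ℕ) [Fact p.Prime] (k : Type) [Field k] [NumberField k]
      (K : IntermediateField k (AlgebraicClosure k)) [FiniteDimensional k K] [IsGalois k K]
      (γ : AbsGal k) (c d a b : ℕ), 0 < d → orderOf (c : ZMod p) = d → (∀ x ∈ K, (γ ^ d) x = x) →
      UnramifiedExponent K p a → ActsBy K γ p c → ∀ S : Set (Ideal (𝓞 k)),
      FrobeniusPrimes K γ p b c d S →
        RigidTrivial K p S (a + b) d ∧ RigidUnipotent K p S (a + b) d) ∧
    -- (3) the hypotheses of (1) for `k = ℚ`, and for `K = ℚ(ζ_3)`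
    (∀ p : ℕ, UnramifiedExponent (⊥ : IntermediateField ℚ (AlgebraicClosure ℚ)) p 0) ∧
    Module.finrank ℚ Q3 = 2 ∧ UnramifiedExponent Q3 3 0 := by
  refine ⟨?_, ?_, part3, part3b⟩
  · intro p _ hp2 k _ _ K hK a b hk hKa S hS A _ _ _ _ e0 j n hA hj hj2 ρ hρ hw ht
    exact part1 p hp2 k K hK a b hk hKa S hS A e0 j n hA hj hj2 ρ hρ hw ht
  · intro p _ k _ _ K _ _ γ c d a b hd ho hγ hKa hact S hS
    refine ⟨?_, ?_⟩
    · intro A _ _ _ _ e0 j n hA hj hj2 ρ hρ hw ht
      exact part2 p k K γ c d a b hd ho hγ hKa hact S hS A e0 n hA ρ hρ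
        (Or.inl ⟨j, hj, hj2, hw, ht⟩)
    · intro A _ _ _ _ e0 n hA hn ρ hρ hur hres
      exact part2 p k K γ c d a b hd ho hγ hKa hact S hS A e0 n hA ρ hρ
        (Or.inr ⟨hn, hur, hres⟩)

end Pool.Agent.Results.MP_f68ac8_nt.QuadraticSubfields
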