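import Pool.Agent.Q15.FM2E

/-!
# Two-dimensional weight zero representations of number fields

Let `K` be a number field, `p` a prime, `S` a set of primes of `K` not above `p`, and `A` a discrete
valuation ring with finite residue field `κ` of characteristic `p` in which `p` has valuation `e`. Let
`ρ : G_K → GL_2(A)` be a continuous representation, unramified outside `S`, with unipotent reduction
and unipotent inertia images. Two conditions on the additive characters `G_K → κ` unramified outside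
`S` imply that `ρ` is trivial:

* (`NoPair`) two characters `x`, `y`, such that the primes in `S` ramified for one of them split
  completely for the other, are not both nonzero;
* (`NoTuple`) a homomorphism `M` from `G_K` to the additive group of two by two matrices over `κ`
  which satisfies the first order consequences of the tame relations has values with a common kernel
  at the inertia groups.

The second condition follows from the first one when any three characters are dependent; if `p = 2`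
and `A` is unramified, it suffices to consider characters ramified only at primes with norm
`1` modulo `4`.

For `K = ℚ` and `p = 2` the conditions hold for sets of four primes such as `S = {3, 7, 11, 17}`.
-/

set_option autoImplicit false

namespace Pool.Agent.Results.MP_f68ac8_nt.RankTwoNumberFields

open NumberField IsLocalRing Matrix

/-- the absolute Galois group of the field `K`, with the Krull topology -/
abbrev AbsGal (K : Type) [Field K] : Type := Gal(AlgebraicClosure K/K)

/-- the ring of all algebraic integers -/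
abbrev ZBar (K : Type) [Field K] : Type := 𝓞 (AlgebraicClosure K)

section

variable {K : Type} [Field K] [NumberField K]

/-- `τ` lies in the inertia group at the prime ideal `P` of the ring of all algebraic integers -/
def InInertia (P : Ideal (ZBar K)) (τ : AbsGal K) : Prop := ∀ x : ZBar K, τ • x - x ∈ P

/-- the prime of `K` below `P` -/
noncomputable def below (P : Ideal (ZBar K)) : Ideal (𝓞 K) :=
  P.comap (algebraMap (𝓞 K) (ZBar K))

/-- `σ` is a Frobenius element at `P`: it acts on the residue field as `x ↦ x ^ N(v)`, where `v` is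
the prime of `K` below `P` -/
def IsFrobenius (P : Ideal (ZBar K)) (σ : AbsGal K) : Prop :=
  ∀ x : ZBar K, σ • x - x ^ Ideal.absNorm (below P) ∈ P

/-- the homomorphism `f` is trivial on the inertia groups at the primes which are not in `S` -/
def UnramifiedOutside (S : Set (Ideal (𝓞 K))) {E : Type} [Group E] (f : AbsGal K →* E) : Prop :=
  ∀ P : Ideal (ZBar K), P.IsMaximal → below P ∉ S → ∀ τ : AbsGal K, InInertia P τ → f τ = 1

variable (κ : Type) [Field κ]

/-- a continuous character with values in the additive group of `κ` which is unramified outside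
`S` -/
def IsCharacter (S : Set (Ideal (𝓞 K))) (x : AbsGal K →* Multiplicative κ) : Prop :=
  IsOpen (x.ker : Set (AbsGal K)) ∧ UnramifiedOutside S x

variable {κ}

/-- the primes in `S` at which `x` is ramified are completely split for `y`: the Frobenius elements
are in the kernel of `y` -/
def SplitWhereRamified (S : Set (Ideal (𝓞 K))) (x y : AbsGal K →* Multiplicative κ) : Prop :=
  ∀ P : Ideal (ZBar K), P.IsMaximal → below P ∈ S → (∃ τ, InInertia P τ ∧ x τ ≠ 1) →
    ∀ σ, IsFrobenius P σ → y σ = 1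

variable (κ)

/-- there is no pair of nonzero characters such that the ramified primes of each of them split
completely for the other one -/
def NoPair (S : Set (Ideal (𝓞 K))) : Prop :=
  ∀ x y : AbsGal K →* Multiplicative κ, IsCharacter κ S x → IsCharacter κ S y →
    SplitWhereRamified S x y → SplitWhereRamified S y x → (∀ g, x g = 1) ∨ ∀ g, y g = 1

/-- Let `M` be a continuous homomorphism from `G_K` to the additive group of two by two matrices over
`κ`, unramified outside `S`. Suppose that, for every inertia element `τ` and Frobenius element `σ` at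
a prime `P` above `v ∈ S`, we have `M(τ) ^ 2 = 0`, `M(τ) = 0` if `N(v)` is not `1` modulo `p ^ r`, and
`M(σ) M(τ) - M(τ) M(σ) = ((N(v) - 1) / p ^ r) M(τ)` otherwise. Then the matrices `M(τ)` have a common
nonzero kernel vector. -/
def NoTuple (p r : ℕ) (S : Set (Ideal (𝓞 K))) : Prop :=
  ∀ M : AbsGal K → Matrix (Fin 2) (Fin 2) κ, (∀ g h, M (g * h) = M g + M h) →
    IsOpen {g | M g = 0} →
    (∀ P : Ideal (ZBar K), P.IsMaximal → below P ∉ S → ∀ τ, InInertia P τ → M τ = 0) →
    (∀ P : Ideal (ZBar K), P.IsMaximal → below P ∈ S → ∀ τ, InInertia P τ →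
      M τ * M τ = 0 ∧ (¬ p ^ r ∣ Ideal.absNorm (below P) - 1 → M τ = 0) ∧
      ∀ σ, IsFrobenius P σ →
        M σ * M τ - M τ * M σ = (((Ideal.absNorm (below P) - 1) / p ^ r : ℕ) : κ) • M τ) →
    ∃ w : Fin 2 → κ, w ≠ 0 ∧ ∀ P : Ideal (ZBar K), P.IsMaximal → below P ∈ S →
      ∀ τ, InInertia P τ → M τ *ᵥ w = 0

/-- any three characters unramified outside `S` are linearly dependent over `κ` -/
def Dependent (S : Set (Ideal (𝓞 K))) : Prop :=
  ∀ x y z : AbsGal K →* Multiplicative κ, IsCharacter κ S x → IsCharacter κ S y →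
    IsCharacter κ S z → ∃ a b c : κ, ¬ (a = 0 ∧ b = 0 ∧ c = 0) ∧
      ∀ g, a * Multiplicative.toAdd (x g) + b * Multiplicative.toAdd (y g) +
        c * Multiplicative.toAdd (z g) = 0

end

/-- the topology of `A` is the adic topology, the residue field is finite of characteristic `p`, and
`p` has valuation `e` (for instance `A = ℤ_p`, `e = 1`) -/
structure Coefficients (A : Type) [CommRing A] [IsDomain A] [IsDiscreteValuationRing A]
    [TopologicalSpace A] (p e : ℕ) : Prop where
  adic : IsAdic (maximalIdeal A)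
  residue : Finite (ResidueField A)
  pos : 1 ≤ e
  mem : (p : A) ∈ maximalIdeal A ^ e
  notMem : (p : A) ∉ maximalIdeal A ^ (e + 1)

/-- Every continuous representation `ρ : G_K → GL_2(A)` which is unramified outside `S`, has unipotent
reduction and unipotent inertia images at the primes in `S` is trivial. If `p ≠ 2` and `2 e < p - 1`,
the condition on the inertia images at the primes in `S` is not needed. -/
def Rigid {K : Type} [Field K] [NumberField K] (A : Type) [CommRing A] [IsDomain A]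
    [IsDiscreteValuationRing A] [TopologicalSpace A] (p e : ℕ) (S : Set (Ideal (𝓞 K))) : Prop :=
  ∀ ρ : AbsGal K →* GL (Fin 2) A, Continuous ρ → UnramifiedOutside S ρ →
    (∀ g, ∃ m : ℕ, ∀ i j,
      (((ρ g : Matrix (Fin 2) (Fin 2) A) - 1) ^ m) i j ∈ maximalIdeal A) →
    ((p ≠ 2 ∧ 2 * e < p - 1) ∨ ∀ P : Ideal (ZBar K), P.IsMaximal → below P ∈ S →
      ∀ τ, InInertia P τ → ((ρ τ : Matrix (Fin 2) (Fin 2) A) - 1) ^ 2 = 0) →
    ∀ g, ρ g = 1

/-- Four distinct primes with a special pattern of quadratic residues, for instance `17, 3, 7, 11`: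
the first one is `1` modulo `4` and not a square modulo the other ones, which are `3` modulo `4` and
cyclically squares modulo each other. -/
structure SpecialPrimes (l : Fin 4 → ℕ) : Prop where
  prime : ∀ i, (l i).Prime
  inj : Function.Injective l
  zero : l 0 % 4 = 1
  three : ∀ i, i ≠ 0 → l i % 4 = 3
  link : ∀ i, i ≠ 0 → ¬ IsSquare ((l 0 : ℕ) : ZMod (l i))
  cyc : IsSquare ((l 2 : ℕ) : ZMod (l 1)) ∧ IsSquare ((l 3 : ℕ) : ZMod (l 2)) ∧
    IsSquare ((l 1 : ℕ) : ZMod (l 3))

section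

open Pool.Agent.Q15.FMScal Pool.Agent.Q15.FM2A Pool.Agent.Q15.FM2B Pool.Agent.Q15.FM2C
  Pool.Agent.Q15.FM2D Pool.Agent.Q15.FM2E

variable {K : Type} [Field K] [NumberField K] {κ : Type} [Field κ]

theorem chr_iff {S : Set (Ideal (𝓞 K))} {x : AbsGal K →* Multiplicative κ} :
    IsCharacter κ S x ↔ Chr κ (UrS S) x := by
  constructor
  · rintro ⟨h1, h2⟩
    refine ⟨h1, ?_⟩
    rintro τ ⟨P, hP, hPS, hτ⟩
    exact h2 P hP hPS τ hτ
  · rintro ⟨h1, h2⟩
    exact ⟨h1, fun P hP hPS τ hτ => h2 τ ⟨P, hP, hPS, hτ⟩⟩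

theorem np_of {S : Set (Ideal (𝓞 K))} (h : NoPair κ S) : NP κ (UrS S) (TS S) := by
  intro x y hx hy h1 h2
  refine h x y (chr_iff.2 hx) (chr_iff.2 hy) ?_ ?_
  · rintro P hP hPS ⟨τ, hτ, hne⟩ σ hσ
    exact (h1 τ σ _ ⟨P, hP, hPS, hτ, hσ, rfl⟩ hne).2
  · rintro P hP hPS ⟨τ, hτ, hne⟩ σ hσ
    exact (h2 τ σ _ ⟨P, hP, hPS, hτ, hσ, rfl⟩ hne).2

theorem noPair_of {S : Set (Ideal (𝓞 K))} (h : NP κ (UrS S) (TS S)) : NoPair κ S := by
  have key : ∀ x y : AbsGal K →* Multiplicative κ, SplitWhereRamified S x y →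
      ∀ τ σ q, TS S τ σ q → x τ ≠ 1 → y τ = 1 ∧ y σ = 1 := by
    rintro x y hxy τ σ q ⟨P, hP, hPS, hτ, hσ, rfl⟩ hne
    have h1 : ∀ σ, IsFrobenius P σ → y σ = 1 := hxy P hP hPS ⟨τ, hτ, hne⟩
    refine ⟨?_, h1 σ hσ⟩
    have h2 : IsFrobenius P (σ * τ) := by
      intro z
      have e : (σ * τ) • z - z ^ Ideal.absNorm (below P) =
          (σ • (τ • z) - (τ • z) ^ Ideal.absNorm (below P)) +
            ((τ • z) ^ Ideal.absNorm (below P) - z ^ Ideal.absNorm (below P)) := by
        rw [mul_smul]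
        ring
      rw [e]
      refine P.add_mem (hσ _) ?_
      obtain ⟨w, hw⟩ := sub_dvd_pow_sub_pow (τ • z) z (Ideal.absNorm (below P))
      rw [hw]
      exact P.mul_mem_right _ (hτ z)
    have h3 := h1 _ h2
    rw [map_mul, h1 σ hσ, one_mul] at h3
    exact h3
  intro x y hx hy h1 h2
  exact h x y (chr_iff.1 hx) (chr_iff.1 hy) (key x y h1) (key y x h2)

theorem nt_of {S : Set (Ideal (𝓞 K))} {p r : ℕ} (h : NoTuple κ p r S) :
    NT κ (UrS S) (TS S) p r := by
  intro X hX hsq hz hrel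
  have h0 : ∀ g, mat X g = 0 ↔ ∀ i j, X i j g = 1 := by
    intro g
    constructor
    · intro h i j
      have h1 := congrFun (congrFun h i) j
      exact Multiplicative.toAdd.injective (h1.trans toAdd_one.symm)
    · exact mat_eq_zero X
  have hfr : ∀ P : Ideal (ZBar K), P.IsMaximal → ∃ σ, IsFrobenius P σ := fun P hP =>
    Pool.Agent.Q15.FMNT.exists_frobAt hP (Pool.Agent.Q15.FMMain.cm_ne_bot hP)
  have key : IsOpen {g | mat X g = 0} := by
    have h1 : {g | mat X g = 0} = ((((X 0 0).ker ⊓ (X 0 1).ker) ⊓ ((X 1 0).ker ⊓ (X 1 1).ker) :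
        Subgroup (AbsGal K)) : Set (AbsGal K)) := by
      ext g
      show mat X g = 0 ↔ _
      rw [h0]
      constructor
      · intro h
        exact ⟨⟨h 0 0, h 0 1⟩, h 1 0, h 1 1⟩
      · rintro ⟨⟨h00, h01⟩, h10, h11⟩ i j
        fin_cases i <;> fin_cases j
        · exact h00
        · exact h01
        · exact h10
        · exact h11
    rw [h1]
    exact ((hX 0 0).op.inter (hX 0 1).op).inter ((hX 1 0).op.inter (hX 1 1).op)
  obtain ⟨w, hw, hww⟩ := h (mat X) (mat_mul X) key
    (fun P hP hPS τ hτ => mat_eq_zero X fun i j => (hX i j).ur τ ⟨P, hP, hPS, hτ⟩)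
    (fun P hP hPS τ hτ => by
      obtain ⟨σ₀, hσ₀⟩ := hfr P hP
      refine ⟨hsq τ σ₀ _ ⟨P, hP, hPS, hτ, hσ₀, rfl⟩, hz τ σ₀ _ ⟨P, hP, hPS, hτ, hσ₀, rfl⟩, ?_⟩
      intro σ hσ
      exact hrel τ σ _ ⟨P, hP, hPS, hτ, hσ, rfl⟩)
  refine ⟨w, hw, ?_⟩
  rintro τ σ q ⟨P, hP, hPS, hτ, hσ, rfl⟩
  exact hww P hP hPS τ hτ

theorem dep_iff {S : Set (Ideal (𝓞 K))} : Dependent κ S ↔ Dep κ (UrS S) := by
  constructor
  · intro h x y z hx hy hz
    exact h x y z (chr_iff.2 hx) (chr_iff.2 hy) (chr_iff.2 hz)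
  · intro h x y z hx hy hz
    exact h x y z (chr_iff.1 hx) (chr_iff.1 hy) (chr_iff.1 hz)

end

theorem rigid (p : ℕ) [Fact p.Prime] (K : Type) [Field K] [NumberField K] (S : Set (Ideal (𝓞 K)))
    (hS : ∀ v ∈ S, (p : 𝓞 K) ∉ v) (A : Type) [CommRing A] [IsDomain A]
    [IsDiscreteValuationRing A] [TopologicalSpace A] (e : ℕ) (hA : Coefficients A p e)
    (hNP : NoPair (ResidueField A) S)
    (h : (∀ r, (r ≠ 0 ∨ e ≠ 1) → NoTuple (ResidueField A) p r S) ∨ Dependent (ResidueField A) S ∨
      (p = 2 ∧ e = 1 ∧ Dependent (ResidueField A) {v | v ∈ S ∧ 4 ∣ Ideal.absNorm v - 1})) :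
    Rigid A p e S := by
  have hp : p.Prime := Fact.out
  have hpm : (p : A) ∈ maximalIdeal A := by
    have h1 := Ideal.pow_le_pow_right hA.pos hA.mem
    rwa [pow_one] at h1
  have hNP' := np_of hNP
  intro ρ hρ hur hres hun g
  refine Pool.Agent.Q15.FM2C.main hp S hS hA.adic hA.residue hA.pos hA.mem hA.notMem hNP' ?_ ρ hρ
    ?_ hres ?_ g
  · intro r hr
    rcases h with h | h | ⟨rfl, rfl, h⟩
    · exact nt_of (h r hr)
    · exact Pool.Agent.Q15.FM2D.nt_of_dep hNP' (dep_iff.1 h) p r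
    · exact Pool.Agent.Q15.FM2D.nt_of_dep_two
        (Pool.Agent.TH831.OE.natCast_zero_iff hp hpm) hNP' (dep_iff.1 h)
        (hr.resolve_right fun h => h rfl)
  · rintro τ ⟨P, hP, hPS, hτ⟩
    exact hur P hP hPS τ hτ
  · rcases hun with h1 | h1
    · exact Or.inl h1
    · right
      intro P hP hPS τ hτ
      have h2 := h1 P hP hPS τ hτ
      rw [pow_two] at h2
      exact h2

/-- **Main theorem.** -/
theorem result :
    -- the theorem
    (∀ (p : ℕ) [Fact p.Prime] (K : Type) [Field K] [NumberField K] (S : Set (Ideal (𝓞 K))),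
      (∀ v ∈ S, (p : 𝓞 K) ∉ v) → ∀ (A : Type) [CommRing A] [IsDomain A]
      [IsDiscreteValuationRing A] [TopologicalSpace A] (e : ℕ), Coefficients A p e →
      NoPair (ResidueField A) S →
      ((∀ r, (r ≠ 0 ∨ e ≠ 1) → NoTuple (ResidueField A) p r S) ∨ Dependent (ResidueField A) S ∨
        (p = 2 ∧ e = 1 ∧
          Dependent (ResidueField A) {v | v ∈ S ∧ 4 ∣ Ideal.absNorm v - 1})) →
      Rigid A p e S) ∧
    -- sets of four rational primes
    (∀ l : Fin 4 → ℕ, SpecialPrimes l → ∀ (A : Type) [CommRing A] [IsDomain A]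
      [IsDiscreteValuationRing A] [TopologicalSpace A], Coefficients A 2 1 →
      Rigid A 2 1 {v : Ideal (𝓞 ℚ) | ∃ i, (l i : 𝓞 ℚ) ∈ v}) ∧
    SpecialPrimes ![17, 3, 7, 11] := by
  have : Fact (Nat.Prime 2) := ⟨Nat.prime_two⟩
  refine ⟨fun p _ K _ _ S hS A _ _ _ _ e hA hNP h => rigid p K S hS A e hA hNP h, ?_, ?_⟩
  · intro l hl A _ _ _ _ hA ρ hρ hur hres hun g
    have hQ : Pool.Agent.Q15.FM2E.Quad l := ⟨hl.prime, hl.inj, hl.zero, hl.three, hl.link, hl.cyc⟩
    have hpm : ((2 : ℕ) : A) ∈ maximalIdeal A := by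
      have h1 := hA.mem
      rwa [pow_one] at h1
    have h2 : CharP (ResidueField A) 2 := Pool.Agent.TH831.OE.charP_res Nat.prime_two hpm
    have h3 : Finite (ResidueField A) := hA.residue
    -- remove the unit ideal
    have hmem : ∀ P : Ideal (ZBar ℚ), P.IsMaximal →
        (below P ∈ {v : Ideal (𝓞 ℚ) | (∃ i, (l i : 𝓞 ℚ) ∈ v) ∧ v ≠ ⊤} ↔
          below P ∈ {v : Ideal (𝓞 ℚ) | ∃ i, (l i : 𝓞 ℚ) ∈ v}) := by
      intro P hP
      exact ⟨fun h => h.1, fun h => ⟨h, Pool.Agent.W571.FM.cm_ne_top hP⟩⟩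
    have hNP : NoPair (ResidueField A) {v : Ideal (𝓞 ℚ) | ∃ i, (l i : 𝓞 ℚ) ∈ v} :=
      noPair_of (Pool.Agent.Q15.FM2E.np hQ)
    have hDep : Dependent (ResidueField A)
        {v : Ideal (𝓞 ℚ) | v ∈ {v : Ideal (𝓞 ℚ) | ∃ i, (l i : 𝓞 ℚ) ∈ v} ∧
          4 ∣ Ideal.absNorm v - 1} := dep_iff.2 (Pool.Agent.Q15.FM2E.dep hQ)
    refine rigid 2 ℚ {v : Ideal (𝓞 ℚ) | (∃ i, (l i : 𝓞 ℚ) ∈ v) ∧ v ≠ ⊤} ?_ A 1 hA ?_ ?_ ρ hρ
      (fun P hP hPS => hur P hP (fun h => hPS ((hmem P hP).2 h))) hres ?_ g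
    · rintro v ⟨⟨i, hi⟩, hv⟩ h4
      apply hv
      rw [Ideal.eq_top_iff_one]
      have hodd : ∃ m, l i = 2 * m + 1 := (hl.prime i).odd_of_ne_two (hQ.ne_two i)
      obtain ⟨m, hm⟩ := hodd
      have h5 : (1 : 𝓞 ℚ) = (l i : 𝓞 ℚ) - (m : 𝓞 ℚ) * ((2 : ℕ) : 𝓞 ℚ) := by
        rw [hm]
        push_cast
        ring
      rw [h5]
      exact v.sub_mem hi (v.mul_mem_left _ h4)
    · intro x y hx hy hxy hyx
      refine hNP x y ⟨hx.1, fun P hP hPS => hx.2 P hP fun h => hPS ((hmem P hP).1 h)⟩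
        ⟨hy.1, fun P hP hPS => hy.2 P hP fun h => hPS ((hmem P hP).1 h)⟩
        (fun P hP hPS => hxy P hP ((hmem P hP).2 hPS))
        (fun P hP hPS => hyx P hP ((hmem P hP).2 hPS))
    · refine Or.inr (Or.inr ⟨rfl, rfl, fun x y z hx hy hz => hDep x y z ?_ ?_ ?_⟩)
      · exact ⟨hx.1, fun P hP hPS => hx.2 P hP fun h => hPS ⟨(hmem P hP).1 h.1, h.2⟩⟩
      · exact ⟨hy.1, fun P hP hPS => hy.2 P hP fun h => hPS ⟨(hmem P hP).1 h.1, h.2⟩⟩
      · exact ⟨hz.1, fun P hP hPS => hz.2 P hP fun h => hPS ⟨(hmem P hP).1 h.1, h.2⟩⟩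
    · rcases hun with h | h
      · exact absurd rfl h.1
      · exact Or.inr fun P hP hPS => h P hP ((hmem P hP).1 hPS)
  · refine ⟨?_, ?_, by norm_num, ?_, ?_, ?_⟩
    · intro i
      fin_cases i <;> norm_num
    · decide
    · decide
    · intro i hi
      fin_cases i
      · exact absurd rfl hi
      · show ¬ IsSquare ((17 : ℕ) : ZMod 3)
        rintro ⟨x, hx⟩
        revert x
        decide
      · show ¬ IsSquare ((17 : ℕ) : ZMod 7)
        rintro ⟨x, hx⟩
        revert x
        decide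
      · show ¬ IsSquare ((17 : ℕ) : ZMod 11)
        rintro ⟨x, hx⟩
        revert x
        decide
    · exact ⟨⟨1, by decide⟩, ⟨2, by decide⟩, ⟨5, by decide⟩⟩

end Pool.Agent.Results.MP_f68ac8_nt.RankTwoNumberFields
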