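import Pool.Agent.Q15.FMRankE

/-!
# Weight zero representations of Galois groups with one or two essential generators

Let `K` be a number field, `p` a prime, `S` a set of primes of `K`, and `A` a discrete valuation ring
with finite residue field of characteristic `p` in which `p` has valuation `e0`. We consider continuous
representations `ρ : G_K → GL_n(A)`, `n` arbitrary, which are unramified outside `S` and `p`, have finite
inertia images at the places above `p` which are not in `S`, and are trivial modulo the `j`-th power of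
the maximal ideal, `e0 < (p - 1) * j`. Let `r = 1`, or `r = 2` and `p` odd.

* Suppose that every finite abelian `p`-quotient `E` of `G_K` unramified outside `S` has exponent
  dividing `p ^ e`, and `p ^ e' E` is contained in a group generated by `r` elements. Then `ρ` is trivial
  when `e' * e0 < j` (`r = 1`) or `(e + e') * e0 < 2 * j` (`r = 2`).
* The hypothesis holds, with `e + a` and `e' + a` in place of `e` and `e'`, if `p ^ a` kills the
  unramified abelian `p`-extensions of `K` and `S` is any set of primes `v` not above `p` with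
  `N(v) ≢ 1` modulo `p ^ (e + 1)`, and `N(v) ≢ 1` modulo `p ^ (e' + 1)` except for `r` of them.
-/

set_option autoImplicit false

namespace Pool.Agent.Results.MP_f68ac8_nt.TwoGenerators

open NumberField IsLocalRing

/-- the absolute Galois group of the field `K`, with the Krull topology -/
abbrev AbsGal (K : Type) [Field K] : Type := Gal(AlgebraicClosure K/K)

/-- the ring of all algebraic integers -/
abbrev ZBar (K : Type) [Field K] : Type := 𝓞 (AlgebraicClosure K)

section

variable {K : Type} [Field K] [NumberField K]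

/-- `τ` lies in the inertia group at the prime ideal `P` of the ring of all algebraic integers -/
def InInertia (P : Ideal (ZBar K)) (τ : AbsGal K) : Prop := ∀ x : ZBar K, τ • x - x ∈ P

/-- the prime of `K` below `P` -/
noncomputable def below (P : Ideal (ZBar K)) : Ideal (𝓞 K) :=
  P.comap (algebraMap (𝓞 K) (ZBar K))

/-- the homomorphism `f` is trivial on the inertia groups at the primes which are not in `S` -/
def UnramifiedOutside (S : Set (Ideal (𝓞 K))) {E : Type} [Group E] (f : AbsGal K →* E) : Prop :=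
  ∀ P : Ideal (ZBar K), P.IsMaximal → below P ∉ S → ∀ τ : AbsGal K, InInertia P τ → f τ = 1

/-- The homomorphism `f` is trivial on the inertia groups at the primes not in `S` and not above `p`,
and has finite inertia images at the primes above `p` which are not in `S`. -/
def WeightZeroOutside (p : ℕ) (S : Set (Ideal (𝓞 K))) {E : Type} [Group E] (f : AbsGal K →* E) :
    Prop :=
  ∀ P : Ideal (ZBar K), P.IsMaximal → below P ∉ S →
    ((p : ZBar K) ∈ P → (f '' {τ : AbsGal K | InInertia P τ}).Finite) ∧
    ((p : ZBar K) ∉ P → ∀ τ : AbsGal K, InInertia P τ → f τ = 1)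

/-- `ρ` is trivial modulo the `j`-th power of the maximal ideal -/
def TrivialMod {A : Type} [CommRing A] [IsLocalRing A] {n : ℕ} (j : ℕ)
    (ρ : AbsGal K →* GL (Fin n) A) : Prop :=
  ∀ g s t, ((ρ g : Matrix (Fin n) (Fin n) A) - 1) s t ∈ maximalIdeal A ^ j

end

section

variable (K : Type) [Field K] [NumberField K]

/-- Let `E` be the Galois group of a finite abelian extension of `K` of `p`-power degree which is
unramified outside `S` at the finite places. Then `p ^ e` kills `E`, and `p ^ e' E` is contained in a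
subgroup of `E` generated by `r` elements. -/
def RayBound (p e' e r : ℕ) (S : Set (Ideal (𝓞 K))) : Prop :=
  ∀ (E : Type) [CommGroup E] [Finite E], IsPGroup p E → ∀ f : AbsGal K →* E,
    IsOpen (f.ker : Set (AbsGal K)) → UnramifiedOutside S f →
    (∀ g, f g ^ p ^ e = 1) ∧
    ∃ T : Fin r → E, ∀ g, f g ^ p ^ e' ∈ Subgroup.closure (Set.range T)

/-- the finite abelian extensions of `K` of `p`-power degree which are unramified at all finite places
have exponent dividing `p ^ a` -/
def UnramifiedExponent (p a : ℕ) : Prop :=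
  ∀ (E : Type) [CommGroup E] [Finite E], IsPGroup p E → ∀ f : AbsGal K →* E,
    IsOpen (f.ker : Set (AbsGal K)) → UnramifiedOutside ∅ f → ∀ g, f g ^ p ^ a = 1

/-- `S` consists of primes not above `p` whose norm is not `1` modulo `p ^ (e + 1)` and, except for
`v 0, …, v (r - 1)`, not `1` modulo `p ^ (e' + 1)` -/
structure TameExcept (p e' e r : ℕ) (v : Fin r → Ideal (𝓞 K)) (S : Set (Ideal (𝓞 K))) : Prop where
  tame : ∀ w ∈ S, (p : 𝓞 K) ∉ w
  exp : ∀ w ∈ S, ¬ p ^ (e + 1) ∣ Ideal.absNorm w - 1
  except : ∀ w ∈ S, (∀ i, w ≠ v i) → ¬ p ^ (e' + 1) ∣ Ideal.absNorm w - 1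

end

/-- the topology of `A` is the adic topology, the residue field is finite of characteristic `p`, and
`p` has valuation `e0` (for instance `A = ℤ_p`, `e0 = 1`) -/
structure Coefficients (A : Type) [CommRing A] [IsDomain A] [IsDiscreteValuationRing A]
    [TopologicalSpace A] (p e0 : ℕ) : Prop where
  adic : IsAdic (maximalIdeal A)
  residue : Finite (ResidueField A)
  pos : 1 ≤ e0
  mem : (p : A) ∈ maximalIdeal A ^ e0
  notMem : (p : A) ∉ maximalIdeal A ^ (e0 + 1)

/-- Every continuous representation of `G_K` over a ring `A` of coefficients, of any dimension, which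
is unramified outside `S` and `p`, has finite inertia images at the places above `p` not in `S`, and is
trivial modulo the `j`-th power of the maximal ideal, where `c * e0 < d * j` and
`e0 < (p - 1) * j`, is trivial. -/
def Rigid (K : Type) [Field K] [NumberField K] (p c d : ℕ) (S : Set (Ideal (𝓞 K))) : Prop :=
  ∀ (A : Type) [CommRing A] [IsDomain A] [IsDiscreteValuationRing A] [TopologicalSpace A]
    (e0 j n : ℕ), Coefficients A p e0 → c * e0 < d * j → e0 < (p - 1) * j →
    ∀ ρ : AbsGal K →* GL (Fin n) A, Continuous ρ → WeightZeroOutside p S ρ →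
      TrivialMod j ρ → ∀ g, ρ g = 1

theorem rigid (p : ℕ) [Fact p.Prime] (K : Type) [Field K] [NumberField K] (e' e r c : ℕ)
    (S : Set (Ideal (𝓞 K))) (h1 : RayBound K p e' e r S)
    (hr : (r = 1 ∧ c = e') ∨ (r = 2 ∧ p ≠ 2 ∧ c = e + e')) : Rigid K p c r S := by
  intro A _ _ _ _ e0 j n hA hj hj2 ρ hρ hw ht
  have hp : p.Prime := Fact.out
  have hreg : Pool.Agent.W569.UF.RegOrd A p e0 := Pool.Agent.W569.UF.regOrd_dvr hA.mem hA.notMem
  have hpA : (p : A) ∈ maximalIdeal A := by
    have h1 := Ideal.pow_le_pow_right hA.pos hA.mem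
    rwa [pow_one] at h1
  have hj1 : 1 ≤ j := by
    rcases Nat.eq_zero_or_pos j with h | h
    · rw [h, mul_zero] at hj2
      omega
    · exact h
  refine Pool.Agent.Q15.FMRankD.compact (e := e) (e' := e') (r := r) hA.adic hA.pos hreg
    (Pool.Agent.Q15.FMScal.UrS S) ?_ ?_ hj1 hj2 ρ hρ ?_ (fun g s t => ht g s t)
  · intro E _ _ hE f hf hu
    exact h1 E hE f hf (fun P hP hPS τ hτ => hu τ ⟨P, hP, hPS, hτ⟩)
  · rcases hr with ⟨rfl, rfl⟩ | ⟨rfl, h2, rfl⟩
    · left
      rw [one_mul] at hj
      exact ⟨rfl, hj⟩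
    · right
      exact ⟨rfl, h2, hj⟩
  · rintro τ ⟨P, hP, hPS, hτ⟩
    obtain ⟨h3, h4⟩ := hw P hP hPS
    by_cases hpP : (p : ZBar K) ∈ P
    · obtain ⟨m, hm, hm1⟩ := Pool.Agent.Q15.FMMain.exists_pow_eq_one (h3 hpP) (g := ρ τ)
        (fun m => ⟨τ ^ m, Pool.Agent.Q15.FMMain.inertia_pow hτ m, map_pow ρ τ m⟩)
      apply Units.ext
      refine Pool.Agent.Q15.FMTors.eq_one_of_pow hp hpA hreg hj1 hj2 m hm _
        (fun s t => ht τ s t) ?_
      rw [← Units.val_pow_eq_pow_val, hm1, Units.val_one]
    · exact h4 hpP τ hτ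

theorem unrEx {K : Type} [Field K] [NumberField K] {p a : ℕ} (h : UnramifiedExponent K p a) :
    Pool.Agent.Q15.FMRankE.UnrEx K p a :=
  fun E _ _ hE f hf hu => h E hE f hf (fun P hP _ τ hτ => hu P hP τ hτ)

theorem bound_of_few {K : Type} [Field K] [NumberField K] {p a e' e r : ℕ} [Fact p.Prime]
    (h : UnramifiedExponent K p a) {v : Fin r → Ideal (𝓞 K)} {S : Set (Ideal (𝓞 K))}
    (hS : Pool.Agent.Q15.FMRankE.FewPrimes p e' e r v {w ∈ S | w ≠ ⊥}) :
    RayBound K p (e' + a) (e + a) r S := by
  intro E _ _ hE f hf hu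
  refine Pool.Agent.Q15.FMRankE.few (unrEx h) hS E hE f hf ?_
  rintro τ ⟨P, hP, hPS, hτ⟩
  refine hu P hP (fun h => hPS ⟨h, Pool.Agent.Q15.FMMain.cm_ne_bot hP⟩) τ hτ

/-- **Main theorem.** -/
theorem result (p : ℕ) [Fact p.Prime] (r : ℕ) (hr : r = 1 ∨ (r = 2 ∧ p ≠ 2))
    (K : Type) [Field K] [NumberField K] (e' e : ℕ) (S : Set (Ideal (𝓞 K))) :
    -- the theorem
    (RayBound K p e' e r S → Rigid K p ((r - 1) * e + e') r S) ∧
    -- sets of primes not above `p`
    (∀ (a : ℕ) (v : Fin r → Ideal (𝓞 K)), UnramifiedExponent K p a → TameExcept K p e' e r v S →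
      Rigid K p ((r - 1) * (e + a) + (e' + a)) r S) := by
  have main : ∀ e' e, RayBound K p e' e r S → Rigid K p ((r - 1) * e + e') r S := by
    intro e' e h
    rcases hr with rfl | ⟨rfl, hp2⟩
    · exact rigid p K e' e 1 _ S h (Or.inl ⟨rfl, by simp⟩)
    · exact rigid p K e' e 2 _ S h (Or.inr ⟨rfl, hp2, by simp⟩)
  refine ⟨main e' e, fun a v ha hS => main _ _ (bound_of_few (v := v) ha ?_)⟩
  exact ⟨fun w hw => hS.tame w hw.1, fun w hw => hS.exp w hw.1, fun w hw h => hS.except w hw.1 h⟩

end Pool.Agent.Results.MP_f68ac8_nt.TwoGenerators
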